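import Pool.Agent.Lib.MP_15cb89_nt.Conv
import Pool.Agent.Lib.MP_15cb89_nt.Main

set_option autoImplicit false

namespace Pool.Agent.Results.MP_15cb89_nt.CompleteList

open Pool.Agent.Lib.MP_15cb89_nt

/-- For square-free `D = n^2 + 4`, the quadratic field containing a square root of `D` has class
number two exactly for eight values of `D`. -/
theorem result :
    ∀ n D : ℕ, 0 < n → D = n ^ 2 + 4 → Squarefree D →
      ∀ (K : Type) [Field K] [NumberField K],
        Module.finrank ℚ K = 2 → (∃ x : K, x ^ 2 = (D : K)) →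
        (NumberField.classNumber K = 2 ↔
          D = 85 ∨ D = 365 ∨ D = 533 ∨ D = 629 ∨ D = 965 ∨ D = 1685 ∨ D = 1853 ∨ D = 2813) := by
  intro n D hn hD hsq K _ _ hK hx
  subst hD
  constructor
  · intro h2
    obtain ⟨p, q, hp, hq, hpq, hD, hG⟩ := A5_genus n hn hsq K hK hx h2
    by_cases hb : n ≤ 1849
    · have h := E_pairs n p q hn hb hp hq hpq hD hG
      simp only [ePairs, List.mem_cons, Prod.mk.injEq, List.not_mem_nil, or_false] at h
      rcases h with ⟨rfl, rfl⟩ | ⟨rfl, rfl⟩ | ⟨rfl, rfl⟩ | ⟨rfl, rfl⟩ | ⟨rfl, rfl⟩ |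
        ⟨rfl, rfl⟩ | ⟨rfl, rfl⟩ | ⟨rfl, rfl⟩ | ⟨rfl, rfl⟩ | ⟨rfl, rfl⟩ | ⟨rfl, rfl⟩ |
        ⟨rfl, rfl⟩ | ⟨rfl, rfl⟩ | ⟨rfl, rfl⟩ | ⟨rfl, rfl⟩ | ⟨rfl, rfl⟩ | ⟨rfl, rfl⟩
      · norm_num
      · norm_num
      · norm_num
      · norm_num
      · norm_num
      · norm_num
      · norm_num
      · norm_num
      · obtain rfl : q = 1009 := by omega
        exact (E_kill 71 5 1009 29 hp hq hG (by norm_num) (by norm_num) (by norm_num)
          (by norm_num)).elim
      · obtain rfl : q = 113 := by omega
        exact (E_kill 83 61 113 13 hp hq hG (by norm_num) (by norm_num) (by norm_num)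
          (by norm_num)).elim
      · obtain rfl : q = 2377 := by omega
        exact (E_kill 109 5 2377 11 hp hq hG (by norm_num) (by norm_num) (by norm_num)
          (by norm_num)).elim
      · obtain rfl : q = 241 := by omega
        exact (E_kill 113 53 241 29 hp hq hG (by norm_num) (by norm_num) (by norm_num)
          (by norm_num)).elim
      · obtain rfl : q = 4561 := by omega
        exact (E_kill 151 5 4561 19 hp hq hG (by norm_num) (by norm_num) (by norm_num)
          (by norm_num)).elim
      · obtain rfl : q = 277 := by omega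
        exact (E_kill 157 89 277 47 hp hq hG (by norm_num) (by norm_num) (by norm_num)
          (by norm_num)).elim
      · obtain rfl : q = 6553 := by omega
        exact (E_kill 181 5 6553 19 hp hq hG (by norm_num) (by norm_num) (by norm_num)
          (by norm_num)).elim
      · obtain rfl : q = 1213 := by omega
        exact (E_kill 223 41 1213 31 hp hq hG (by norm_num) (by norm_num) (by norm_num)
          (by norm_num)).elim
      · obtain rfl : q = 12601 := by omega
        exact (E_kill 251 5 12601 19 hp hq hG (by norm_num) (by norm_num) (by norm_num)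
          (by norm_num)).elim
    · exact (no_big (by omega) hp hq hpq hD hG).elim
  · have inj : ∀ m : ℕ, n ^ 2 + 4 = m ^ 2 + 4 → n = m := fun m h =>
      Nat.pow_left_injective two_ne_zero (Nat.add_right_cancel h)
    rintro (h | h | h | h | h | h | h | h)
    · obtain rfl := inj 9 h
      exact C_two 9 hn hsq K hK hx 5 17 (by norm_num) (by norm_num) rfl _ C_chk9
    · obtain rfl := inj 19 h
      exact C_two 19 hn hsq K hK hx 5 73 (by norm_num) (by norm_num) rfl _ C_chk19
    · obtain rfl := inj 23 h
      exact C_two 23 hn hsq K hK hx 13 41 (by norm_num) (by norm_num) rfl _ C_chk23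
    · obtain rfl := inj 25 h
      exact C_two 25 hn hsq K hK hx 17 37 (by norm_num) (by norm_num) rfl _ C_chk25
    · obtain rfl := inj 31 h
      exact C_two 31 hn hsq K hK hx 5 193 (by norm_num) (by norm_num) rfl _ C_chk31
    · obtain rfl := inj 41 h
      exact C_two 41 hn hsq K hK hx 5 337 (by norm_num) (by norm_num) rfl _ C_chk41
    · obtain rfl := inj 43 h
      exact C_two 43 hn hsq K hK hx 17 109 (by norm_num) (by norm_num) rfl _ C_chk43
    · obtain rfl := inj 53 h
      exact C_two 53 hn hsq K hK hx 29 97 (by norm_num) (by norm_num) rfl _ C_chk53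

end Pool.Agent.Results.MP_15cb89_nt.CompleteList
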